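import Pool.Agent.Helper27.VF.Goals

/-!
# VF-DRA: extension of derivations of `BB`
-/

set_option autoImplicit false

namespace Pool.Agent.Helper98.VF

open Pool.Agent.Helper27.VF

universe u

open Classical in
/-- the label of `g` -/
noncomputable def lam {A W : Type u} [Group A] [MulAction A W] (G : SimpleGraph W)
    (p : Ultrafilter W) (k : ℕ) (g : A) : A ⊕ (Set W × Set W) :=
  if h : g ∉ BB A G p k ∧ ∃ d ∈ DD A G p k, Inn p g d.2 then Sum.inr h.2.choose else Sum.inl g

theorem dra (hDer : DerStmt.{u}) (hPth : PthStmt.{u}) (hOra : OraStmt.{u}) (hOrb : OrbStmt.{u})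
    (hOrc : OrcStmt.{u}) (hFrd : FrdStmt.{u}) : DraStmt.{u} := by
  intro A W _ _ G G₀ w p hS k hk htf M _ _ f hf
  have ora2 := (hOra A W G G₀ w p hS k hk).2
  obtain ⟨-, orb2, -, orb4⟩ := hOrb A W G G₀ w p hS k hk
  have orc := hOrc A W G G₀ w p hS k hk
  have frd2 := (hFrd A W G G₀ w p hS k hk htf).2
  have pth := hPth A W G G₀ w p hS k hk
  have l1 : ∀ g ∈ BB A G p k, lam G p k g = Sum.inl g := by
    intro g hg
    unfold lam
    rw [dif_neg (fun h => h.1 hg)]
  have l2 : ∀ g, g ∉ BB A G p k → ∀ d ∈ DD A G p k, Inn p g d.2 → lam G p k g = Sum.inr d := by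
    intro g hg d hd hgd
    have h : g ∉ BB A G p k ∧ ∃ d ∈ DD A G p k, Inn p g d.2 := ⟨hg, d, hd, hgd⟩
    unfold lam
    rw [dif_pos h]
    congr 1
    by_contra hne
    exact ora2 _ h.2.choose_spec.1 d hd hne g ⟨h.2.choose_spec.2, hgd⟩
  -- translates by elements of `BB`
  have l3 : ∀ b ∈ BB A G p k, ∀ g, g ∉ BB A G p k → ∀ d ∈ DD A G p k, Inn p g d.2 →
      lam G p k (b * g) = Sum.inr (tr b d) := by
    intro b hb g hg d hd hgd
    refine l2 _ (fun h => hg ?_) _ (orb4 b hb d hd) ?_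
    · have := (BB A G p k).mul_mem ((BB A G p k).inv_mem hb) h
      rwa [inv_mul_cancel_left] at this
    · rw [inn_tr_snd, inv_mul_cancel_left]
      exact hgd
  refine hDer A (BB A G p k) (A ⊕ (Set W × Set W)) (lam G p k) ?_ ?_ ?_ ?_ M f hf
  · intro b hb g g' hgg
    by_cases hg : g ∈ BB A G p k
    · by_cases hg' : g' ∈ BB A G p k
      · rw [l1 g hg, l1 g' hg'] at hgg
        rw [Sum.inl.inj hgg]
      · obtain ⟨d, hd, hgd⟩ := orb2 g' hg'
        rw [l1 g hg, l2 g' hg' d hd hgd] at hgg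
        cases hgg
    · obtain ⟨d, hd, hgd⟩ := orb2 g hg
      by_cases hg' : g' ∈ BB A G p k
      · rw [l2 g hg d hd hgd, l1 g' hg'] at hgg
        cases hgg
      · obtain ⟨d', hd', hgd'⟩ := orb2 g' hg'
        rw [l2 g hg d hd hgd, l2 g' hg' d' hd' hgd'] at hgg
        have := Sum.inr.inj hgg
        subst this
        rw [l3 b hb g hg d hd hgd, l3 b hb g' hg' d hd' hgd']
  · intro b hb g hgg
    by_cases hg : g ∈ BB A G p k
    · rw [l1 g hg, l1 (b * g) ((BB A G p k).mul_mem hb hg)] at hgg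
      have := Sum.inl.inj hgg
      simpa using this
    · obtain ⟨d, hd, hgd⟩ := orb2 g hg
      rw [l3 b hb g hg d hd hgd, l2 g hg d hd hgd] at hgg
      exact frd2 b d hd (Sum.inr.inj hgg)
  · intro x y
    have hfin := pth (y • w) (x • w)
    refine (((Set.finite_singleton (x : A ⧸ BB A G p k)).union
      (Set.finite_singleton (y : A ⧸ BB A G p k))).union (hfin.biUnion
      (t := fun e => {q : A ⧸ BB A G p k | ∃ g : A, ∃ d ∈ DD A G p k,
        (g : A ⧸ BB A G p k) = q ∧ tr g d = e}) ?_)).subset ?_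
    · intro e _
      refine Set.Subsingleton.finite ?_
      rintro q ⟨g, d, hd, rfl, rfl⟩ q' ⟨g', d', hd', rfl, he⟩
      rw [QuotientGroup.eq]
      refine orc (g⁻¹ * g') d' hd' ?_
      rw [← tr_tr, he, tr_tr, inv_mul_cancel, tr_one]
      exact hd
    · rintro q ⟨g, rfl, hne⟩
      by_cases hx : g⁻¹ * x ∈ BB A G p k
      · left; left
        exact QuotientGroup.eq.2 hx
      by_cases hy : g⁻¹ * y ∈ BB A G p k
      · left; right
        exact QuotientGroup.eq.2 hy
      right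
      obtain ⟨d, hd, hxd⟩ := orb2 _ hx
      have hyd : ¬ Inn p (g⁻¹ * y) d.2 := by
        intro hyd
        exact hne ((l2 _ hx d hd hxd).trans (l2 _ hy d hd hyd).symm)
      have hdS : d ∈ SS A G p k := hd.1
      have hyd1 : Inn p (g⁻¹ * y) d.1 := by
        by_contra h
        exact hyd ((inn_snd hS hdS.1).2 h)
      have heS : tr g d ∈ SS A G p k := SS.tr hS hdS g
      have hex : Inn p x (tr g d).2 := by rwa [inn_tr_snd]
      have hey : Inn p y (tr g d).1 := by rwa [inn_tr_fst]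
      rw [Set.mem_iUnion₂]
      refine ⟨tr g d, ⟨heS, ?_, ?_⟩, g, d, hd, rfl, rfl⟩
      · intro h
        have := fact1' hS heS.1 h
        exact (inn_snd hS heS.1).1 this hey
      · intro h
        have := fact1 hS heS.1 h
        exact (inn_snd hS heS.1).1 hex this
  · intro b hb g hg
    have hg' : g⁻¹ ∉ BB A G p k := fun h => hg (by
      have := (BB A G p k).inv_mem h
      rwa [inv_inv] at this)
    have hgb : g⁻¹ * b ∉ BB A G p k := fun h => hg' (by
      have := (BB A G p k).mul_mem h ((BB A G p k).inv_mem hb)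
      rwa [mul_inv_cancel_right] at this)
    obtain ⟨d, hd, hgd⟩ := orb2 _ hg'
    rw [l2 _ hg' d hd hgd]
    refine l2 _ hgb d hd ?_
    have h1 : Inn p (g⁻¹ * b) d.1 ↔ Inn p g⁻¹ d.1 := hb g⁻¹ d hd.1
    rw [inn_snd hS hd.1.1] at hgd ⊢
    exact fun h => hgd (h1.1 h)

end Pool.Agent.Helper98.VF
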