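import Pool.Agent.Helper27.VF.Goals

/-!
# VF-ORC
-/

set_option autoImplicit false

namespace Pool.Agent.Helper98.VF

open Pool.Agent.Helper27.VF

universe u

theorem orc (hOra : OraStmt.{u}) (hOrb : OrbStmt.{u}) : OrcStmt.{u} := by
  intro A W _ _ G G₀ w p hS k hk g d hd hd'
  have ora2 := (hOra A W G G₀ w p hS k hk).2
  obtain ⟨-, orb2, -, -⟩ := hOrb A W G G₀ w p hS k hk
  by_contra hg
  obtain ⟨e, he, hge⟩ := orb2 g hg
  have hgd : Inn p g (tr g d).1 := by
    rw [inn_tr_fst, inv_mul_cancel]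
    exact hd.2.1
  have hne : tr g d ≠ e := by
    intro h
    rw [← h] at hge
    exact (inn_snd hS hd'.1.1).1 hge hgd
  obtain ⟨-, -, a, h, -, hh⟩ := hd'.1
  have hhe : ¬ Inn p h e.2 := fun h1 => ora2 _ hd' e he hne h ⟨hh, h1⟩
  have hhe1 : Inn p h e.1 := by
    by_contra h1
    exact hhe ((inn_snd hS he.1.1).2 h1)
  have hc := (corner hk hd'.1 (SS.swap he.1) (g := g) (h := h) (inn_inter.2 ⟨hgd, hge⟩)
    (inn_inter.2 ⟨hh, hhe1⟩)).1
  -- minimality
  have hmin : tr g⁻¹ (cor (tr g d) (e.2, e.1)) = d := by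
    refine hd.2.2 _ (SS.tr hS hc g⁻¹) ?_ ?_
    · rw [inn_tr_fst, inv_inv, mul_one]
      exact inn_inter.2 ⟨hgd, hge⟩
    · constructor
      · rintro x ⟨hx, -⟩
        simpa [tr] using hx
      · intro x hx
        left
        simpa [tr] using hx
  have hsub : (tr g d).1 ⊆ e.2 := by
    intro x hx
    have h1 : cor (tr g d) (e.2, e.1) = tr g d := by
      have h3 := congrArg (tr g) hmin
      rwa [tr_tr, mul_inv_cancel, tr_one] at h3
    have h2 : x ∈ (cor (tr g d) (e.2, e.1)).1 := by rw [h1]; exact hx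
    exact h2.2
  obtain ⟨x, hx1, hx2⟩ := inn_nonempty hS (inn_inter.2 ⟨hd'.2.1, he.2.1⟩)
  exact he.1.1.disj x hx2 (hsub hx1)

end Pool.Agent.Helper98.VF
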